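import Pool.Agent.P8H18.PS.Stm

/-!
Package CNT of project PS: from the weighted to the unweighted number.
-/

set_option autoImplicit false

namespace Pool.Agent.P8H20.PS

open Finset Filter Pool.Agent.P8H18.PS

open Classical in
/-- the proper prime powers up to `M` -/
noncomputable def PPP (M : ℕ) : Finset ℕ := (Icc 1 M).filter fun n => IsPrimePow n ∧ ¬ n.Prime

theorem ppp_card (M : ℕ) : (PPP M).card ≤ Nat.sqrt M * Nat.log 2 M := by
  classical
  have hsub : PPP M ⊆ (Icc 1 (Nat.sqrt M) ×ˢ Icc 1 (Nat.log 2 M)).image fun x : ℕ × ℕ => x.1 ^ x.2 := by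
    intro n hn
    unfold PPP at hn
    rw [Finset.mem_filter, Finset.mem_Icc] at hn
    obtain ⟨⟨hn1, hnM⟩, hpp, hnp⟩ := hn
    rw [isPrimePow_nat_iff] at hpp
    obtain ⟨p, k, hp, hk, hpk⟩ := hpp
    have hk1 : k ≠ 1 := by
      rintro rfl
      rw [pow_one] at hpk
      exact hnp (hpk ▸ hp)
    have hk2 : 2 ≤ k := by omega
    rw [Finset.mem_image]
    refine ⟨(p, k), ?_, hpk⟩
    rw [Finset.mem_product, Finset.mem_Icc, Finset.mem_Icc]
    refine ⟨⟨hp.one_lt.le, ?_⟩, ⟨by omega, ?_⟩⟩
    · rw [Nat.le_sqrt]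
      calc p * p = p ^ 2 := (pow_two p).symm
        _ ≤ p ^ k := Nat.pow_le_pow_right hp.pos hk2
        _ = n := hpk
        _ ≤ M := hnM
    · apply Nat.le_log_of_pow_le (by norm_num)
      calc 2 ^ k ≤ p ^ k := Nat.pow_le_pow_left hp.two_le k
        _ = n := hpk
        _ ≤ M := hnM
  calc (PPP M).card ≤ _ := Finset.card_le_card hsub
    _ ≤ (Icc 1 (Nat.sqrt M) ×ˢ Icc 1 (Nat.log 2 M)).card := Finset.card_image_le
    _ = Nat.sqrt M * Nat.log 2 M := by
        rw [Finset.card_product, Nat.card_Icc, Nat.card_Icc, Nat.add_sub_cancel, Nat.add_sub_cancel]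

theorem ppp_real (N : ℕ) (hN : 2 ≤ N) : ((PPP (2 * N)).card : ℝ) ≤ 8 * (√(N : ℝ) * Real.log N) := by
  have hN2 : (2 : ℝ) ≤ N := by exact_mod_cast hN
  have hN0 : (0 : ℝ) < N := by linarith
  have h1 : ((PPP (2 * N)).card : ℝ) ≤ (Nat.sqrt (2 * N) : ℝ) * (Nat.log 2 (2 * N) : ℝ) := by
    exact_mod_cast ppp_card (2 * N)
  have h2 : (Nat.sqrt (2 * N) : ℝ) ≤ 2 * √(N : ℝ) := by
    have e1 : (Nat.sqrt (2 * N) : ℝ) ≤ √((2 * N : ℕ) : ℝ) := Real.nat_sqrt_le_real_sqrt
    have e2 : √((2 * N : ℕ) : ℝ) ≤ 2 * √(N : ℝ) := by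
      rw [Real.sqrt_le_left (by positivity)]
      push_cast
      rw [mul_pow, Real.sq_sqrt hN0.le]
      linarith
    exact e1.trans e2
  have hlog2 := Real.log_two_gt_d9
  have h3 : (Nat.log 2 (2 * N) : ℝ) ≤ 4 * Real.log N := by
    have e1 : (2 : ℝ) ^ (Nat.log 2 (2 * N)) ≤ ((2 * N : ℕ) : ℝ) := by
      exact_mod_cast Nat.pow_log_le_self 2 (by omega : 2 * N ≠ 0)
    have e2 : Real.log ((2 : ℝ) ^ (Nat.log 2 (2 * N))) ≤ Real.log ((2 * N : ℕ) : ℝ) :=
      Real.log_le_log (by positivity) e1
    rw [Real.log_pow] at e2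
    have e3 : Real.log ((2 * N : ℕ) : ℝ) ≤ 2 * Real.log N := by
      push_cast
      rw [Real.log_mul (by norm_num) hN0.ne']
      have : Real.log 2 ≤ Real.log N := Real.log_le_log (by norm_num) hN2
      linarith
    have e4 : (Nat.log 2 (2 * N) : ℝ) * (1 / 2) ≤ (Nat.log 2 (2 * N) : ℝ) * Real.log 2 :=
      mul_le_mul_of_nonneg_left (by linarith) (Nat.cast_nonneg _)
    linarith
  calc ((PPP (2 * N)).card : ℝ) ≤ (Nat.sqrt (2 * N) : ℝ) * (Nat.log 2 (2 * N) : ℝ) := h1
    _ ≤ (2 * √(N : ℝ)) * (4 * Real.log N) := by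
        apply mul_le_mul h2 h3 (Nat.cast_nonneg _) (by positivity)
    _ = 8 * (√(N : ℝ) * Real.log N) := by ring

/-- changing the logarithm by a constant -/
theorem near (c : ℝ) (s : ℕ) {ε : ℝ} (hε : 0 < ε) : ∀ᶠ t : ℝ in atTop, |(t + c) ^ s - t ^ s| ≤ ε * t ^ s := by
  have h1 : Tendsto (fun t : ℝ => (1 + c / t) ^ s) atTop (nhds 1) := by
    have h2 : Tendsto (fun t : ℝ => 1 + c / t) atTop (nhds (1 + 0)) :=
      tendsto_const_nhds.add (tendsto_const_nhds.div_atTop tendsto_id)
    have h3 := h2.pow s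
    rw [add_zero, one_pow] at h3
    exact h3
  have h4 := (Metric.tendsto_nhds.1 h1) ε hε
  filter_upwards [h4, eventually_gt_atTop (0 : ℝ)] with t ht ht0
  rw [Real.dist_eq] at ht
  have h5 : (t + c) ^ s = (1 + c / t) ^ s * t ^ s := by
    rw [← mul_pow]
    congr 1
    field_simp
  rw [h5]
  have h6 : (1 + c / t) ^ s * t ^ s - t ^ s = ((1 + c / t) ^ s - 1) * t ^ s := by ring
  rw [h6, abs_mul, abs_of_pos (pow_pos ht0 s)]
  exact mul_le_mul_of_nonneg_right ht.le (pow_pos ht0 s).le

/-- powers of the logarithm -/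
theorem logs (C : ℝ) (K : ℕ) : ∀ᶠ x : ℝ in atTop, C * Real.log x ^ K ≤ √x := by
  have h1 := isLittleO_log_rpow_rpow_atTop (s := 1 / 2) (K : ℝ) (by norm_num)
  have h2 := h1.bound (c := 1 / (|C| + 1)) (by positivity)
  filter_upwards [h2, eventually_ge_atTop (1 : ℝ)] with x hx hx1
  have hl : 0 ≤ Real.log x := Real.log_nonneg hx1
  rw [Real.norm_of_nonneg (Real.rpow_nonneg hl _), Real.norm_of_nonneg (Real.rpow_nonneg (by linarith) _),
    Real.rpow_natCast, ← Real.sqrt_eq_rpow] at hx
  have h3 : (|C| + 1) * Real.log x ^ K ≤ √x := by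
    have h4 : 0 < |C| + 1 := by positivity
    calc (|C| + 1) * Real.log x ^ K ≤ (|C| + 1) * (1 / (|C| + 1) * √x) :=
          mul_le_mul_of_nonneg_left hx h4.le
      _ = √x := by field_simp
  have h5 : 0 ≤ Real.log x ^ K := pow_nonneg hl K
  have h6 : C ≤ |C| + 1 := by
    have := le_abs_self C
    linarith
  exact (mul_le_mul_of_nonneg_right h6 h5).trans h3

theorem cnt_aux (s N : ℕ) (V : Finset ℕ) (P : Finset ℕ) :
    ∑ h ∈ Box s N, ((V.filter fun v => ∃ i, v + h i ∈ P).card : ℝ) ≤
      s * (V.card * (P.card * (N : ℝ) ^ (s - 1))) := by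
  classical
  have h1 : ∀ h : Fin s → ℕ, ((V.filter fun v => ∃ i, v + h i ∈ P).card : ℝ) ≤
      ∑ i : Fin s, ∑ v ∈ V, if v + h i ∈ P then (1 : ℝ) else 0 := by
    intro h
    rw [Finset.sum_comm, Finset.card_filter, Nat.cast_sum]
    refine Finset.sum_le_sum fun v _ => ?_
    by_cases hv : ∃ i, v + h i ∈ P
    · obtain ⟨i, hi⟩ := hv
      rw [if_pos ⟨i, hi⟩, Nat.cast_one]
      calc (1 : ℝ) = if v + h i ∈ P then (1 : ℝ) else 0 := (if_pos hi).symm
        _ ≤ ∑ i : Fin s, if v + h i ∈ P then (1 : ℝ) else 0 :=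
            Finset.single_le_sum (f := fun i : Fin s => if v + h i ∈ P then (1 : ℝ) else 0)
              (fun _ _ => by positivity) (Finset.mem_univ i)
    · rw [if_neg hv, Nat.cast_zero]
      exact Finset.sum_nonneg fun _ _ => by positivity
  have h2 : ∀ (i : Fin s) (v : ℕ), ∑ h ∈ Box s N, (if v + h i ∈ P then (1 : ℝ) else 0) ≤
      P.card * (N : ℝ) ^ (s - 1) := by
    intro i v
    rw [← Finset.sum_filter, Finset.sum_const, nsmul_eq_mul, mul_one]
    set Fi : Fin s → Finset ℕ := fun j => if j = i then (Icc 1 N).filter (fun n => v + n ∈ P) else Icc 1 N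
      with hFi
    have e1 : (Box s N).filter (fun h => v + h i ∈ P) ⊆ Fintype.piFinset Fi := by
      intro h hh
      rw [Finset.mem_filter] at hh
      unfold Box at hh
      rw [Fintype.mem_piFinset] at hh ⊢
      intro j
      rw [hFi]
      by_cases hj : j = i
      · simp only [hj, if_true]
        exact Finset.mem_filter.2 ⟨hh.1 i, hh.2⟩
      · simp only [hj, if_false]
        exact hh.1 j
    have e2 : (Fintype.piFinset Fi).card ≤ P.card * N ^ (s - 1) := by
      rw [Fintype.card_piFinset, ← Finset.mul_prod_erase _ _ (Finset.mem_univ i)]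
      have e3 : (Fi i).card ≤ P.card := by
        rw [hFi]
        simp only [if_true]
        apply Finset.card_le_card_of_injOn (fun n => v + n)
        · intro n hn
          rw [Finset.mem_coe, Finset.mem_filter] at hn
          exact hn.2
        · intro a _ b _ hab
          simpa using hab
      have e4 : ∏ j ∈ univ.erase i, (Fi j).card = N ^ (s - 1) := by
        rw [Finset.prod_congr rfl (g := fun _ => N)]
        · rw [Finset.prod_const, Finset.card_erase_of_mem (Finset.mem_univ i), Finset.card_univ,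
            Fintype.card_fin]
        · intro j hj
          rw [hFi]
          simp only [(Finset.mem_erase.1 hj).1, if_false]
          rw [Nat.card_Icc, Nat.add_sub_cancel]
      rw [e4]
      exact Nat.mul_le_mul_right _ e3
    have e5 : ((Box s N).filter (fun h => v + h i ∈ P)).card ≤ P.card * N ^ (s - 1) :=
      (Finset.card_le_card e1).trans e2
    exact_mod_cast e5
  calc ∑ h ∈ Box s N, ((V.filter fun v => ∃ i, v + h i ∈ P).card : ℝ) ≤
      ∑ h ∈ Box s N, ∑ i : Fin s, ∑ v ∈ V, (if v + h i ∈ P then (1 : ℝ) else 0) :=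
        Finset.sum_le_sum fun h _ => h1 h
    _ = ∑ i : Fin s, ∑ v ∈ V, ∑ h ∈ Box s N, (if v + h i ∈ P then (1 : ℝ) else 0) := by
        rw [Finset.sum_comm]
        refine Finset.sum_congr rfl fun i _ => ?_
        rw [Finset.sum_comm]
    _ ≤ ∑ i : Fin s, ∑ v ∈ V, (P.card * (N : ℝ) ^ (s - 1)) :=
        Finset.sum_le_sum fun i _ => Finset.sum_le_sum fun v _ => h2 i v
    _ = s * (V.card * (P.card * (N : ℝ) ^ (s - 1))) := by
        simp only [Finset.sum_const, nsmul_eq_mul, Finset.card_univ, Fintype.card_fin]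

theorem cnt : S_CNT := by
  classical
  intro D hD s hs ε hε U
  -- large `N`
  have hev : ∀ᶠ x : ℝ in atTop, |(Real.log x + Real.log 2) ^ s - Real.log x ^ s| ≤ ε * Real.log x ^ s ∧
      |(Real.log x + -Real.log 10) ^ s - Real.log x ^ s| ≤ ε * Real.log x ^ s ∧
      (s * (8 * 2 ^ (U + s))) * Real.log x ^ (U + s + U + 1) ≤ √x ∧ Real.log 10 ≤ Real.log x ∧ 10 ≤ x := by
    have e1 := Real.tendsto_log_atTop.eventually (near (Real.log 2) s hε)
    have e2 := Real.tendsto_log_atTop.eventually (near (-Real.log 10) s hε)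
    have e3 := logs (s * (8 * 2 ^ (U + s))) (U + s + U + 1)
    filter_upwards [e1, e2, e3, eventually_ge_atTop (10 : ℝ)] with x h1 h2 h3 h4
    exact ⟨h1, h2, h3, Real.log_le_log (by norm_num) h4, h4⟩
  have htend : Tendsto (fun L : ℕ => ((10 ^ (2 * L + 1) : ℕ) : ℝ)) atTop atTop := by
    apply tendsto_natCast_atTop_atTop.comp
    apply tendsto_atTop_mono (f := fun L : ℕ => L) _ tendsto_id
    intro L
    calc L ≤ 2 * L + 1 := by omega
      _ ≤ 10 ^ (2 * L + 1) := (Nat.lt_pow_self (by norm_num)).le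
  obtain ⟨L₀, hL₀⟩ := eventually_atTop.1 (htend.eventually hev)
  refine ⟨L₀, fun L hL N hN => ?_⟩
  obtain ⟨g1, g2, g3, g4, g5⟩ := hL₀ L hL
  rw [← hN] at g1 g2 g3 g4 g5
  have hN0 : (0 : ℝ) < N := by linarith
  have hN2 : 2 ≤ N := by
    have : (2 : ℝ) ≤ N := by linarith
    exact_mod_cast this
  have hl2 : Real.log 2 ≤ Real.log N := Real.log_le_log (by norm_num) (by linarith)
  have hl10 : 1 ≤ Real.log 10 := by
    have h1 : Real.log (2 ^ 3 : ℝ) ≤ Real.log 10 := Real.log_le_log (by norm_num) (by norm_num)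
    rw [Real.log_pow] at h1
    have h2 := Real.log_two_gt_d9
    push_cast at h1
    linarith
  have hlog1 : 1 ≤ Real.log N := hl10.trans g4
  have hlog0 : 0 < Real.log N := by linarith
  set V := Pal D L with hV
  set P := PPP (2 * N) with hP
  set Bad : (Fin s → ℕ) → Finset ℕ := fun h => V.filter fun v => ∃ i, v + h i ∈ P with hBad
  set X := (Box s N).filter fun h => (V.card : ℝ) / (2 * Real.log N) ^ (U + s) < (Bad h).card with hX
  refine ⟨X, Finset.filter_subset _ _, ?_, ?_⟩
  · -- the size of the exceptional set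
    rw [le_div_iff₀ (by positivity)]
    by_cases hV0 : V.card = 0
    · have hXe : X = ∅ := by
        rw [hX]
        apply Finset.filter_false_of_mem
        intro h _
        have h1 : (Bad h).card = 0 := by
          have := Finset.card_filter_le V (fun v => ∃ i, v + h i ∈ P)
          rw [hBad]
          simp only
          omega
        rw [hV0, h1]
        simp
      rw [hXe]
      simp only [Finset.card_empty, Nat.cast_zero, zero_mul]
      positivity
    have hVpos : (0 : ℝ) < V.card := by exact_mod_cast Nat.pos_of_ne_zero hV0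
    have h1 : (X.card : ℝ) * ((V.card : ℝ) / (2 * Real.log N) ^ (U + s)) ≤
        s * (V.card * (P.card * (N : ℝ) ^ (s - 1))) := by
      calc (X.card : ℝ) * ((V.card : ℝ) / (2 * Real.log N) ^ (U + s)) =
          ∑ h ∈ X, (V.card : ℝ) / (2 * Real.log N) ^ (U + s) := by
            rw [Finset.sum_const, nsmul_eq_mul]
        _ ≤ ∑ h ∈ X, ((Bad h).card : ℝ) := by
            refine Finset.sum_le_sum fun h hh => ?_
            rw [hX, Finset.mem_filter] at hh
            exact hh.2.le
        _ ≤ ∑ h ∈ Box s N, ((Bad h).card : ℝ) :=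
            Finset.sum_le_sum_of_subset_of_nonneg (Finset.filter_subset _ _) fun _ _ _ => Nat.cast_nonneg _
        _ ≤ _ := cnt_aux s N V P
    have h2 : (X.card : ℝ) ≤ s * (P.card * (N : ℝ) ^ (s - 1)) * (2 * Real.log N) ^ (U + s) := by
      have h3 : (V.card : ℝ) * X.card ≤
          V.card * (s * (P.card * (N : ℝ) ^ (s - 1)) * (2 * Real.log N) ^ (U + s)) := by
        have h4 : (X.card : ℝ) * ((V.card : ℝ) / (2 * Real.log N) ^ (U + s)) * (2 * Real.log N) ^ (U + s) =
            V.card * X.card := by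
          field_simp
        rw [← h4]
        calc _ ≤ s * (V.card * (P.card * (N : ℝ) ^ (s - 1))) * (2 * Real.log N) ^ (U + s) :=
              mul_le_mul_of_nonneg_right h1 (by positivity)
          _ = _ := by ring
      exact le_of_mul_le_mul_left h3 hVpos
    have h5 := ppp_real N hN2
    rw [← hP] at h5
    have hNs : (N : ℝ) ^ s = (N : ℝ) ^ (s - 1) * (√(N : ℝ) * √(N : ℝ)) := by
      rw [Real.mul_self_sqrt hN0.le, ← pow_succ]
      congr 1
      omega
    calc (X.card : ℝ) * Real.log N ^ U ≤
        s * (P.card * (N : ℝ) ^ (s - 1)) * (2 * Real.log N) ^ (U + s) * Real.log N ^ U :=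
          mul_le_mul_of_nonneg_right h2 (by positivity)
      _ ≤ s * ((8 * (√(N : ℝ) * Real.log N)) * (N : ℝ) ^ (s - 1)) * (2 * Real.log N) ^ (U + s) *
          Real.log N ^ U := by
          gcongr
      _ = (N : ℝ) ^ (s - 1) * (√(N : ℝ) *
          ((s * (8 * 2 ^ (U + s))) * Real.log N ^ (U + s + U + 1))) := by
          rw [mul_pow]
          ring
      _ ≤ (N : ℝ) ^ (s - 1) * (√(N : ℝ) * √(N : ℝ)) := by
          gcongr
      _ = (N : ℝ) ^ s := hNs.symm
  · intro h hh hhX
    have hBadle : ((Bad h).card : ℝ) ≤ (V.card : ℝ) / (2 * Real.log N) ^ (U + s) := by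
      by_contra hn
      push Not at hn
      exact hhX (Finset.mem_filter.2 ⟨hh, hn⟩)
    unfold Box at hh
    rw [Fintype.mem_piFinset] at hh
    -- the size of the arguments
    have hsize : ∀ v ∈ V, ∀ i, (N : ℝ) / 10 ≤ ((v + h i : ℕ) : ℝ) ∧ ((v + h i : ℕ) : ℝ) ≤ 2 * N ∧
        v + h i ∈ Icc 1 (2 * N) := by
      intro v hv i
      rw [hV] at hv
      unfold Pal at hv
      rw [Finset.mem_filter, Finset.mem_range, ← hN] at hv
      have hi := Finset.mem_Icc.1 (hh i)
      have e1 : N = 10 * 10 ^ (2 * L) := by rw [hN, pow_succ]; ring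
      have e2 : N ≤ 10 * v := by
        rw [e1]
        exact Nat.mul_le_mul_left 10 hv.2.1
      have e3 : (N : ℝ) ≤ 10 * v := by exact_mod_cast e2
      have e4 : v + h i ≤ 2 * N := by omega
      refine ⟨?_, by exact_mod_cast e4, ?_⟩
      · push_cast
        have : (0 : ℝ) ≤ h i := Nat.cast_nonneg _
        linarith
      · rw [Finset.mem_Icc]
        omega
    have hlogs : ∀ v ∈ V, ∀ i, Real.log N + -Real.log 10 ≤ Real.log ((v + h i : ℕ) : ℝ) ∧
        Real.log ((v + h i : ℕ) : ℝ) ≤ Real.log N + Real.log 2 := by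
      intro v hv i
      obtain ⟨e1, e2, e3⟩ := hsize v hv i
      have hpos : (0 : ℝ) < ((v + h i : ℕ) : ℝ) := by
        have := (Finset.mem_Icc.1 e3).1
        exact_mod_cast this
      constructor
      · have := Real.log_le_log (by positivity) e1
        rw [Real.log_div hN0.ne' (by norm_num)] at this
        linarith
      · have := Real.log_le_log hpos e2
        rw [Real.log_mul (by norm_num) hN0.ne'] at this
        linarith
    have hterm : ∀ v ∈ V, |∏ i, ArithmeticFunction.vonMangoldt (v + h i) -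
        (if ∀ i, (v + h i).Prime then Real.log N ^ s else 0)| ≤
        (if ∀ i, (v + h i).Prime then ε * Real.log N ^ s else 0) +
        (if v ∈ Bad h then (2 * Real.log N) ^ s else 0) := by
      intro v hv
      have hb0 : (0 : ℝ) ≤ if v ∈ Bad h then (2 * Real.log N) ^ s else 0 := by
        split_ifs <;> positivity
      by_cases hpr : ∀ i, (v + h i).Prime
      · rw [if_pos hpr, if_pos hpr]
        have e1 : ∏ i, ArithmeticFunction.vonMangoldt (v + h i) = ∏ i, Real.log ((v + h i : ℕ) : ℝ) :=
          Finset.prod_congr rfl fun i _ => ArithmeticFunction.vonMangoldt_apply_prime (hpr i)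
        have e2 : (Real.log N + -Real.log 10) ^ s ≤ ∏ i, Real.log ((v + h i : ℕ) : ℝ) := by
          calc (Real.log N + -Real.log 10) ^ s = ∏ _i : Fin s, (Real.log N + -Real.log 10) := by
                rw [Finset.prod_const, Finset.card_univ, Fintype.card_fin]
            _ ≤ _ := Finset.prod_le_prod (fun i _ => by linarith) fun i _ => (hlogs v hv i).1
        have e3 : ∏ i, Real.log ((v + h i : ℕ) : ℝ) ≤ (Real.log N + Real.log 2) ^ s := by
          calc _ ≤ ∏ _i : Fin s, (Real.log N + Real.log 2) :=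
                Finset.prod_le_prod (fun i _ => by linarith [(hlogs v hv i).1]) fun i _ => (hlogs v hv i).2
            _ = (Real.log N + Real.log 2) ^ s := by
                rw [Finset.prod_const, Finset.card_univ, Fintype.card_fin]
        rw [e1]
        have e4 := (abs_le.1 g1).2
        have e5 := (abs_le.1 g2).1
        have e6 : |∏ i, Real.log ((v + h i : ℕ) : ℝ) - Real.log N ^ s| ≤ ε * Real.log N ^ s := by
          rw [abs_le]
          constructor <;> linarith
        linarith
      · rw [if_neg hpr, if_neg hpr, sub_zero, zero_add]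
        by_cases hvB : v ∈ Bad h
        · rw [if_pos hvB, Finset.abs_prod]
          calc ∏ i, |ArithmeticFunction.vonMangoldt (v + h i)| ≤ ∏ _i : Fin s, (2 * Real.log N) := by
                refine Finset.prod_le_prod (fun i _ => abs_nonneg _) fun i _ => ?_
                rw [abs_of_nonneg ArithmeticFunction.vonMangoldt_nonneg]
                have e1 := ArithmeticFunction.vonMangoldt_le_log (n := v + h i)
                have e2 := (hlogs v hv i).2
                linarith
            _ = (2 * Real.log N) ^ s := by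
                rw [Finset.prod_const, Finset.card_univ, Fintype.card_fin]
        · rw [if_neg hvB]
          push Not at hpr
          obtain ⟨i, hi⟩ := hpr
          have e1 : ¬ IsPrimePow (v + h i) := by
            intro hpp
            apply hvB
            rw [hBad]
            simp only
            rw [Finset.mem_filter]
            refine ⟨hv, i, ?_⟩
            rw [hP]
            unfold PPP
            rw [Finset.mem_filter]
            exact ⟨(hsize v hv i).2.2, hpp, hi⟩
          have e2 : ArithmeticFunction.vonMangoldt (v + h i) = 0 :=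
            ArithmeticFunction.vonMangoldt_eq_zero_iff.2 e1
          rw [Finset.prod_eq_zero (Finset.mem_univ i) e2, abs_zero]
    have hsum : wcnt D L h - Pool.Agent.P8H18.PS.cnt D L h * Real.log N ^ s =
        ∑ v ∈ V, (∏ i, ArithmeticFunction.vonMangoldt (v + h i) -
          (if ∀ i, (v + h i).Prime then Real.log N ^ s else 0)) := by
      rw [Finset.sum_sub_distrib, ← Finset.sum_filter, Finset.sum_const, nsmul_eq_mul]
      unfold wcnt Pool.Agent.P8H18.PS.cnt
      rfl
    have hcnt : ∑ v ∈ V, (if ∀ i, (v + h i).Prime then ε * Real.log N ^ s else 0) =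
        ε * (Pool.Agent.P8H18.PS.cnt D L h * Real.log N ^ s) := by
      rw [← Finset.sum_filter, Finset.sum_const, nsmul_eq_mul]
      unfold Pool.Agent.P8H18.PS.cnt
      ring
    have hbad : ∑ v ∈ V, (if v ∈ Bad h then (2 * Real.log N) ^ s else 0) =
        (Bad h).card * (2 * Real.log N) ^ s := by
      rw [← Finset.sum_filter, Finset.sum_const, nsmul_eq_mul]
      congr 3
      rw [hBad]
      simp only
      ext v
      rw [Finset.mem_filter, Finset.mem_filter]
      constructor
      · rintro ⟨_, h2⟩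
        exact h2
      · rintro h2
        exact ⟨h2.1, h2⟩
    rw [hsum]
    calc |∑ v ∈ V, (∏ i, ArithmeticFunction.vonMangoldt (v + h i) -
          (if ∀ i, (v + h i).Prime then Real.log N ^ s else 0))| ≤
        ∑ v ∈ V, |∏ i, ArithmeticFunction.vonMangoldt (v + h i) -
          (if ∀ i, (v + h i).Prime then Real.log N ^ s else 0)| := Finset.abs_sum_le_sum_abs _ _
      _ ≤ ∑ v ∈ V, ((if ∀ i, (v + h i).Prime then ε * Real.log N ^ s else 0) +
          (if v ∈ Bad h then (2 * Real.log N) ^ s else 0)) := Finset.sum_le_sum hterm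
      _ = ε * (Pool.Agent.P8H18.PS.cnt D L h * Real.log N ^ s) + (Bad h).card * (2 * Real.log N) ^ s := by
          rw [Finset.sum_add_distrib, hcnt, hbad]
      _ ≤ ε * (Pool.Agent.P8H18.PS.cnt D L h * Real.log N ^ s) + V.card / Real.log N ^ U := by
          have e1 : ((Bad h).card : ℝ) * (2 * Real.log N) ^ s ≤ V.card / Real.log N ^ U := by
            calc ((Bad h).card : ℝ) * (2 * Real.log N) ^ s ≤
                (V.card : ℝ) / (2 * Real.log N) ^ (U + s) * (2 * Real.log N) ^ s :=
                  mul_le_mul_of_nonneg_right hBadle (by positivity)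
              _ = V.card / (2 * Real.log N) ^ U := by
                  rw [pow_add]
                  field_simp
              _ ≤ V.card / Real.log N ^ U := by
                  apply div_le_div_of_nonneg_left (Nat.cast_nonneg _) (by positivity)
                  exact pow_le_pow_left₀ hlog0.le (by linarith) U
          linarith

end Pool.Agent.P8H20.PS
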