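import Pool.Agent.P8H18.PS.Stm

/-!
Package SEC of project PS: the second moment of a product over independent shifts.
-/

set_option autoImplicit false

namespace Pool.Agent.P8H20.PS

open Finset Pool.Agent.P8H18.PS

theorem sec : S_SEC := by
  intro s N V p A K ε j hp hp1 hK hε hA hj
  set B : Fin s → ℕ → ℕ → ℝ := fun i v v' => ∑ n ∈ Icc 1 N, A i v n * A i v' n with hB
  have h1 : ∀ h : Fin s → ℕ, (∑ v ∈ V, p v * ∏ i, A i v (h i)) ^ 2 =
      ∑ v' ∈ V, ∑ v ∈ V, p v' * (p v * ∏ i, (A i v (h i) * A i v' (h i))) := by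
    intro h
    rw [pow_two, Finset.sum_mul_sum, Finset.sum_comm]
    refine Finset.sum_congr rfl fun v' _ => Finset.sum_congr rfl fun v _ => ?_
    rw [Finset.prod_mul_distrib]
    ring
  have h2 : ∑ h ∈ Box s N, (∑ v ∈ V, p v * ∏ i, A i v (h i)) ^ 2 =
      ∑ v' ∈ V, ∑ v ∈ V, p v' * (p v * ∏ i, B i v v') := by
    rw [Finset.sum_congr rfl (fun h _ => h1 h), Finset.sum_comm]
    refine Finset.sum_congr rfl fun v' _ => ?_
    rw [Finset.sum_comm]
    refine Finset.sum_congr rfl fun v _ => ?_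
    rw [← Finset.mul_sum, ← Finset.mul_sum]
    congr 2
    unfold Box
    rw [hB, Finset.prod_univ_sum]
  rw [h2]
  have hBb : ∀ i, ∀ v ∈ V, ∀ v' ∈ V, |B i v v'| ≤ K ^ 2 * N := by
    intro i v hv v' hv'
    rw [hB]
    calc |∑ n ∈ Icc 1 N, A i v n * A i v' n| ≤ ∑ n ∈ Icc 1 N, |A i v n * A i v' n| :=
          Finset.abs_sum_le_sum_abs _ _
      _ ≤ ∑ n ∈ Icc 1 N, K ^ 2 := by
          refine Finset.sum_le_sum fun n hn => ?_
          rw [abs_mul, pow_two]
          exact mul_le_mul (hA i v hv n hn) (hA i v' hv' n hn) (abs_nonneg _) hK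
      _ = K ^ 2 * N := by
          rw [Finset.sum_const, Nat.card_Icc, nsmul_eq_mul, Nat.add_sub_cancel, mul_comm]
  have hKN : 0 ≤ K ^ 2 * (N : ℝ) := by positivity
  have hprod : ∀ v ∈ V, ∀ v' ∈ V, ∏ i, B i v v' ≤ (K ^ 2 * N) ^ (s - 1) * |B j v v'| := by
    intro v hv v' hv'
    calc ∏ i, B i v v' ≤ |∏ i, B i v v'| := le_abs_self _
      _ = ∏ i, |B i v v'| := Finset.abs_prod _ _
      _ = (∏ i ∈ univ.erase j, |B i v v'|) * |B j v v'| := by
          rw [Finset.prod_erase_mul _ _ (Finset.mem_univ j)]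
      _ ≤ (∏ i ∈ univ.erase j, (K ^ 2 * (N : ℝ))) * |B j v v'| := by
          apply mul_le_mul_of_nonneg_right _ (abs_nonneg _)
          exact Finset.prod_le_prod (fun i _ => abs_nonneg _) fun i _ => hBb i v hv v' hv'
      _ = (K ^ 2 * N) ^ (s - 1) * |B j v v'| := by
          rw [Finset.prod_const, Finset.card_erase_of_mem (Finset.mem_univ j), Finset.card_univ,
            Fintype.card_fin]
  calc ∑ v' ∈ V, ∑ v ∈ V, p v' * (p v * ∏ i, B i v v') ≤
      ∑ v' ∈ V, ∑ v ∈ V, p v' * (p v * ((K ^ 2 * N) ^ (s - 1) * |B j v v'|)) := by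
        refine Finset.sum_le_sum fun v' hv' => Finset.sum_le_sum fun v hv => ?_
        exact mul_le_mul_of_nonneg_left
          (mul_le_mul_of_nonneg_left (hprod v hv v' hv') (hp v hv)) (hp v' hv')
    _ = (K ^ 2 * N) ^ (s - 1) * ∑ v' ∈ V, p v' * ∑ v ∈ V, p v * |B j v v'| := by
        rw [Finset.mul_sum]
        refine Finset.sum_congr rfl fun v' _ => ?_
        rw [Finset.mul_sum, Finset.mul_sum]
        refine Finset.sum_congr rfl fun v _ => ?_
        ring
    _ ≤ (K ^ 2 * N) ^ (s - 1) * ∑ v' ∈ V, p v' * ε := by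
        apply mul_le_mul_of_nonneg_left _ (pow_nonneg hKN _)
        refine Finset.sum_le_sum fun v' hv' => ?_
        exact mul_le_mul_of_nonneg_left (hj v' hv') (hp v' hv')
    _ ≤ (K ^ 2 * N) ^ (s - 1) * ε := by
        apply mul_le_mul_of_nonneg_left _ (pow_nonneg hKN _)
        rw [← Finset.sum_mul]
        calc (∑ v ∈ V, p v) * ε ≤ 1 * ε := mul_le_mul_of_nonneg_right hp1 hε
          _ = ε := one_mul ε

end Pool.Agent.P8H20.PS
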